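import Pool.Agent.KDT.StmtsM

set_option autoImplicit false

namespace Pool.Agent.KDT.H19

open Polynomial Pool.Agent.KDT.Z

/-- data: a field over `F`, two points of the curve -/
structure Dt (F : Type) [Field F] (f : F[X]) where
  E : Type
  inst : Field E
  φ : F →+* E
  a1 : E
  a2 : E
  y1 : E
  y2 : E
  h1 : y1 ^ 2 = (f.map φ).eval a1
  h2 : y2 ^ 2 = (f.map φ).eval a2

attribute [instance] Dt.inst

/-- evaluation at `(a1, a2)` -/
noncomputable def ev {F : Type} [Field F] {f : F[X]} (D : Dt F f) : MvPolynomial (Fin 2) F →+* D.E :=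
  MvPolynomial.eval₂Hom D.φ ![D.a1, D.a2]

/-- `f(X_i)` -/
noncomputable def fi {F : Type} [Field F] (f : F[X]) (i : Fin 2) : MvPolynomial (Fin 2) F :=
  Polynomial.toMvPolynomial i f

lemma fi_sum {F : Type} [Field F] (f : F[X]) (i : Fin 2) :
    fi f i = ∑ j ∈ Finset.range (f.natDegree + 1), MvPolynomial.C (f.coeff j) * MvPolynomial.X i ^ j := by
  unfold fi Polynomial.toMvPolynomial
  rw [Polynomial.aeval_eq_sum_range]
  apply Finset.sum_congr rfl
  intro j _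
  rw [MvPolynomial.smul_eq_C_mul]

lemma ev_fi {F : Type} [Field F] {f : F[X]} (D : Dt F f) :
    ev D (fi f 0) = D.y1 ^ 2 ∧ ev D (fi f 1) = D.y2 ^ 2 := by
  constructor
  · rw [D.h1, fi_sum, map_sum, Polynomial.eval_map, Polynomial.eval₂_eq_sum_range]
    apply Finset.sum_congr rfl
    intro j _
    simp [ev]
  · rw [D.h2, fi_sum, map_sum, Polynomial.eval_map, Polynomial.eval₂_eq_sum_range]
    apply Finset.sum_congr rfl
    intro j _
    simp [ev]

lemma fi_totalDegree {F : Type} [Field F] (f : F[X]) (hf : f.natDegree = 5) (i : Fin 2) :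
    (fi f i).totalDegree ≤ 5 := by
  rw [fi_sum]
  apply MvPolynomial.totalDegree_finsetSum_le
  intro j hj
  rw [Finset.mem_range, hf] at hj
  refine (MvPolynomial.totalDegree_mul _ _).trans ?_
  rw [MvPolynomial.totalDegree_C, MvPolynomial.totalDegree_X_pow]
  omega

lemma fi_degreeOf_ne {F : Type} [Field F] (f : F[X]) (i j : Fin 2) (hij : i ≠ j) :
    MvPolynomial.degreeOf j (fi f i) = 0 := by
  apply Nat.le_zero.mp
  rw [fi_sum]
  refine (MvPolynomial.degreeOf_sum_le _ _ _).trans ?_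
  apply Finset.sup_le
  intro l _
  refine (MvPolynomial.degreeOf_mul_le _ _ _).trans ?_
  rw [MvPolynomial.degreeOf_C, MvPolynomial.degreeOf_X_pow_of_ne l (Ne.symm hij)]

lemma fi_degreeOf_self {F : Type} [Field F] (f : F[X]) (hf : f.natDegree = 5) (i : Fin 2) :
    MvPolynomial.degreeOf i (fi f i) = 5 := by
  have hlc : f.coeff 5 ≠ 0 := by
    rw [← hf]
    exact Polynomial.leadingCoeff_ne_zero.mpr (by
      intro h
      rw [h] at hf
      simp at hf)
  have e : fi f i = MvPolynomial.C (f.coeff 5) * MvPolynomial.X i ^ 5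
      + ∑ j ∈ Finset.range 5, MvPolynomial.C (f.coeff j) * MvPolynomial.X i ^ j := by
    rw [fi_sum, hf, Finset.sum_range_succ]
    ring
  have h1 : MvPolynomial.degreeOf i (MvPolynomial.C (f.coeff 5) * MvPolynomial.X i ^ 5 :
      MvPolynomial (Fin 2) F) = 5 := by
    rw [MvPolynomial.degreeOf_mul_eq, MvPolynomial.degreeOf_C, MvPolynomial.degreeOf_X_self_pow]
    · simp [hlc]
    · exact pow_ne_zero _ (MvPolynomial.X_ne_zero i)
  have h2 : MvPolynomial.degreeOf i (∑ j ∈ Finset.range 5,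
      MvPolynomial.C (f.coeff j) * MvPolynomial.X i ^ j : MvPolynomial (Fin 2) F) ≤ 4 := by
    refine (MvPolynomial.degreeOf_sum_le _ _ _).trans ?_
    apply Finset.sup_le
    intro l hl
    rw [Finset.mem_range] at hl
    refine (MvPolynomial.degreeOf_mul_le _ _ _).trans ?_
    rw [MvPolynomial.degreeOf_C, MvPolynomial.degreeOf_X_self_pow]
    omega
  rw [e, MvPolynomial.degreeOf_add_eq_of_degreeOf_lt (by omega), h1]

/-- parity -/
lemma parity {F : Type} [Field F] (i : Fin 2) (A B c : MvPolynomial (Fin 2) F)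
    (hc : Odd (MvPolynomial.degreeOf i c)) (h : A ^ 2 = c * B ^ 2) : A = 0 ∧ B = 0 := by
  have hc0 : c ≠ 0 := by
    rintro rfl
    rw [MvPolynomial.degreeOf_zero] at hc
    exact absurd hc (by decide)
  by_cases hB : B = 0
  · refine ⟨?_, hB⟩
    rw [hB] at h
    simpa using h
  · exfalso
    have hA : A ≠ 0 := by
      rintro rfl
      have : c * B ^ 2 = 0 := by
        rw [← h]
        ring
      exact (mul_ne_zero hc0 (pow_ne_zero 2 hB)) this
    have h1 := congrArg (MvPolynomial.degreeOf i) h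
    rw [MvPolynomial.degreeOf_mul_eq hc0 (pow_ne_zero 2 hB), MvPolynomial.degreeOf_pow_eq _ _ _ hA,
      MvPolynomial.degreeOf_pow_eq _ _ _ hB] at h1
    obtain ⟨r, hr⟩ := hc
    omega

/-- the final norm in `F[X1, X2]` -/
noncomputable def nn {F : Type} [Field F] (f : F[X]) (g0 g1 g2 g3 : MvPolynomial (Fin 2) F) :
    MvPolynomial (Fin 2) F :=
  (g0 ^ 2 + fi f 1 * g2 ^ 2 - fi f 0 * (g1 ^ 2 + fi f 1 * g3 ^ 2)) ^ 2
    - fi f 1 * (2 * (g0 * g2 - fi f 0 * (g1 * g3))) ^ 2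

lemma nn_ne {F : Type} [Field F] [CharZero F] (f : F[X]) (hf : f.natDegree = 5)
    (g0 g1 g2 g3 : MvPolynomial (Fin 2) F) (h : nn f g0 g1 g2 g3 = 0) :
    g0 = 0 ∧ g1 = 0 ∧ g2 = 0 ∧ g3 = 0 := by
  have hd0 : MvPolynomial.degreeOf 0 (fi f 0) = 5 := fi_degreeOf_self f hf 0
  have hd1 : MvPolynomial.degreeOf 1 (fi f 1) = 5 := fi_degreeOf_self f hf 1
  have hd01 : MvPolynomial.degreeOf 0 (fi f 1) = 0 := fi_degreeOf_ne f 1 0 (by decide)
  have hf0 : fi f 0 ≠ 0 := by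
    intro h0
    rw [h0, MvPolynomial.degreeOf_zero] at hd0
    omega
  have hf1 : fi f 1 ≠ 0 := by
    intro h0
    rw [h0, MvPolynomial.degreeOf_zero] at hd1
    omega
  have h2 : (2 : MvPolynomial (Fin 2) F) ≠ 0 := two_ne_zero
  obtain ⟨e1, e2⟩ := parity 1 _ _ (fi f 1) (by rw [hd1]; decide) (sub_eq_zero.mp h)
  have e2' : g0 * g2 - fi f 0 * (g1 * g3) = 0 := by
    rcases mul_eq_zero.mp e2 with h3 | h3
    · exact absurd h3 h2
    · exact h3
  have key : (g0 ^ 2 - fi f 1 * g2 ^ 2 - fi f 0 * (g1 ^ 2 - fi f 1 * g3 ^ 2)) *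
      (g0 ^ 2 - fi f 1 * g2 ^ 2 + fi f 0 * (g1 ^ 2 - fi f 1 * g3 ^ 2)) = 0 := by
    linear_combination (g0 ^ 2 + fi f 1 * g2 ^ 2 + fi f 0 * (g1 ^ 2 + fi f 1 * g3 ^ 2)) * e1
      - 4 * fi f 1 * (g0 * g2 + fi f 0 * (g1 * g3)) * e2'
  rcases mul_eq_zero.mp key with h3 | h3
  · have k1 : g0 ^ 2 = fi f 0 * g1 ^ 2 := by
      apply mul_left_cancel₀ h2
      linear_combination e1 + h3
    have k2 : g2 ^ 2 = fi f 0 * g3 ^ 2 := by
      apply mul_left_cancel₀ (mul_ne_zero h2 hf1)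
      linear_combination e1 - h3
    obtain ⟨a, b⟩ := parity 0 _ _ (fi f 0) (by rw [hd0]; decide) k1
    obtain ⟨c, d⟩ := parity 0 _ _ (fi f 0) (by rw [hd0]; decide) k2
    exact ⟨a, b, c, d⟩
  · have k1 : g0 ^ 2 = (fi f 0 * fi f 1) * g3 ^ 2 := by
      apply mul_left_cancel₀ h2
      linear_combination e1 + h3
    have k2 : fi f 1 * g2 ^ 2 = fi f 0 * g1 ^ 2 := by
      apply mul_left_cancel₀ h2
      linear_combination e1 - h3
    have k3 : (fi f 1 * g2) ^ 2 = (fi f 0 * fi f 1) * g1 ^ 2 := by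
      linear_combination fi f 1 * k2
    have ho : Odd (MvPolynomial.degreeOf 0 (fi f 0 * fi f 1)) := by
      rw [MvPolynomial.degreeOf_mul_eq hf0 hf1, hd0, hd01]
      decide
    obtain ⟨a, b⟩ := parity 0 _ _ _ ho k1
    obtain ⟨c, d⟩ := parity 0 _ _ _ ho k3
    refine ⟨a, d, ?_, b⟩
    rcases mul_eq_zero.mp c with h4 | h4
    · exact absurd h4 hf1
    · exact h4

lemma nn_totalDegree {F : Type} [Field F] (f : F[X]) (hf : f.natDegree = 5)
    (g0 g1 g2 g3 : MvPolynomial (Fin 2) F) (d : ℕ) (h0 : g0.totalDegree ≤ d) (h1 : g1.totalDegree ≤ d)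
    (h2 : g2.totalDegree ≤ d) (h3 : g3.totalDegree ≤ d) :
    (nn f g0 g1 g2 g3).totalDegree ≤ 4 * d + 40 := by
  have m : ∀ (a b : MvPolynomial (Fin 2) F) (x y : ℕ), a.totalDegree ≤ x → b.totalDegree ≤ y →
      (a * b).totalDegree ≤ x + y := fun a b x y ha hb =>
    (MvPolynomial.totalDegree_mul a b).trans (add_le_add ha hb)
  have s : ∀ (a b : MvPolynomial (Fin 2) F) (x : ℕ), a.totalDegree ≤ x → b.totalDegree ≤ x →
      (a + b).totalDegree ≤ x := fun a b x ha hb =>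
    (MvPolynomial.totalDegree_add a b).trans (max_le ha hb)
  have t : ∀ (a b : MvPolynomial (Fin 2) F) (x : ℕ), a.totalDegree ≤ x → b.totalDegree ≤ x →
      (a - b).totalDegree ≤ x := fun a b x ha hb =>
    (MvPolynomial.totalDegree_sub a b).trans (max_le ha hb)
  have q : ∀ (a : MvPolynomial (Fin 2) F) (x : ℕ), a.totalDegree ≤ x →
      (a ^ 2).totalDegree ≤ 2 * x := fun a x ha =>
    (MvPolynomial.totalDegree_pow a 2).trans (Nat.mul_le_mul_left 2 ha)
  have f0 := fi_totalDegree f hf 0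
  have f1 := fi_totalDegree f hf 1
  have w : ∀ (a : MvPolynomial (Fin 2) F) (x y : ℕ), a.totalDegree ≤ x → x ≤ y →
      a.totalDegree ≤ y := fun a x y ha hx => ha.trans hx
  unfold nn
  have p1 : (g0 ^ 2 + fi f 1 * g2 ^ 2 - fi f 0 * (g1 ^ 2 + fi f 1 * g3 ^ 2)).totalDegree
      ≤ 2 * d + 10 := by
    apply t
    · apply s
      · exact w _ _ _ (q _ _ h0) (by omega)
      · exact w _ _ _ (m _ _ _ _ f1 (q _ _ h2)) (by omega)
    · refine w _ _ _ (m _ _ _ (2 * d + 5) f0 ?_) (by omega)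
      apply s
      · exact w _ _ _ (q _ _ h1) (by omega)
      · exact w _ _ _ (m _ _ _ _ f1 (q _ _ h3)) (by omega)
  have p2 : (2 * (g0 * g2 - fi f 0 * (g1 * g3))).totalDegree ≤ 2 * d + 5 := by
    refine w _ _ _ (m _ _ 0 (2 * d + 5) ?_ ?_) (by omega)
    · have e : (2 : MvPolynomial (Fin 2) F) = MvPolynomial.C 2 := (map_ofNat MvPolynomial.C 2).symm
      rw [e, MvPolynomial.totalDegree_C]
    · apply t
      · exact w _ _ _ (m _ _ _ _ h0 h2) (by omega)
      · exact w _ _ _ (m _ _ _ _ f0 (m _ _ _ _ h1 h3)) (by omega)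
  apply t
  · exact w _ _ _ (q _ _ p1) (by omega)
  · exact w _ _ _ (m _ _ _ _ f1 (q _ _ p2)) (by omega)

lemma nn_ev {F : Type} [Field F] {f : F[X]} (D : Dt F f) (g0 g1 g2 g3 : MvPolynomial (Fin 2) F)
    (h : ev D g0 + ev D g1 * D.y1 + ev D g2 * D.y2 + ev D g3 * (D.y1 * D.y2) = 0) :
    ev D (nn f g0 g1 g2 g3) = 0 := by
  obtain ⟨e1, e2⟩ := ev_fi D
  unfold nn
  simp only [map_sub, map_add, map_mul, map_pow, e1, e2, map_ofNat]
  generalize ev D g0 = u0 at *
  generalize ev D g1 = u1 at *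
  generalize ev D g2 = u2 at *
  generalize ev D g3 = u3 at *
  generalize D.y1 = y1 at *
  generalize D.y2 = y2 at *
  linear_combination (u0 - u1 * y1 + u2 * y2 - u3 * (y1 * y2)) *
    (u0 + u1 * y1 - u2 * y2 - u3 * (y1 * y2)) * (u0 - u1 * y1 - u2 * y2 + u3 * (y1 * y2)) * h

/-- representable functions on the data -/
def Rp {F : Type} [Field F] (f : F[X]) (d : ℕ) (h : (D : Dt F f) → D.E) : Prop :=
  ∃ g0 g1 g2 g3 : MvPolynomial (Fin 2) F, g0.totalDegree ≤ d ∧ g1.totalDegree ≤ d ∧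
    g2.totalDegree ≤ d ∧ g3.totalDegree ≤ d ∧
    ∀ D : Dt F f, h D = ev D g0 + ev D g1 * D.y1 + ev D g2 * D.y2 + ev D g3 * (D.y1 * D.y2)

lemma Rp.mono {F : Type} [Field F] {f : F[X]} {d e : ℕ} {h : (D : Dt F f) → D.E} (a : Rp f d h)
    (hd : d ≤ e) : Rp f e h := by
  obtain ⟨g0, g1, g2, g3, b0, b1, b2, b3, hh⟩ := a
  exact ⟨g0, g1, g2, g3, b0.trans hd, b1.trans hd, b2.trans hd, b3.trans hd, hh⟩

lemma Rp.add {F : Type} [Field F] {f : F[X]} {d : ℕ} {h h' : (D : Dt F f) → D.E} (a : Rp f d h)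
    (a' : Rp f d h') : Rp f d (fun D => h D + h' D) := by
  obtain ⟨g0, g1, g2, g3, b0, b1, b2, b3, hh⟩ := a
  obtain ⟨g0', g1', g2', g3', b0', b1', b2', b3', hh'⟩ := a'
  refine ⟨g0 + g0', g1 + g1', g2 + g2', g3 + g3', (MvPolynomial.totalDegree_add _ _).trans (max_le b0 b0'),
    (MvPolynomial.totalDegree_add _ _).trans (max_le b1 b1'),
    (MvPolynomial.totalDegree_add _ _).trans (max_le b2 b2'),
    (MvPolynomial.totalDegree_add _ _).trans (max_le b3 b3'), ?_⟩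
  intro D
  simp only [hh, hh', map_add]
  ring

lemma Rp.mul {F : Type} [Field F] {f : F[X]} (hf : f.natDegree = 5) {d d' : ℕ}
    {h h' : (D : Dt F f) → D.E} (a : Rp f d h)
    (a' : Rp f d' h') : Rp f (d + d' + 10) (fun D => h D * h' D) := by
  obtain ⟨g0, g1, g2, g3, b0, b1, b2, b3, hh⟩ := a
  obtain ⟨r0, r1, r2, r3, b0', b1', b2', b3', hh'⟩ := a'
  have m : ∀ (a b : MvPolynomial (Fin 2) F) (x y : ℕ), a.totalDegree ≤ x → b.totalDegree ≤ y →
      (a * b).totalDegree ≤ x + y := fun a b x y ha hb =>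
    (MvPolynomial.totalDegree_mul a b).trans (add_le_add ha hb)
  have s : ∀ (a b : MvPolynomial (Fin 2) F) (x : ℕ), a.totalDegree ≤ x → b.totalDegree ≤ x →
      (a + b).totalDegree ≤ x := fun a b x ha hb =>
    (MvPolynomial.totalDegree_add a b).trans (max_le ha hb)
  have w : ∀ (a : MvPolynomial (Fin 2) F) (x y : ℕ), a.totalDegree ≤ x → x ≤ y →
      a.totalDegree ≤ y := fun a x y ha hx => ha.trans hx
  have f0 := fi_totalDegree f hf 0
  have f1 := fi_totalDegree f hf 1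
  have pl : ∀ a b : MvPolynomial (Fin 2) F, a.totalDegree ≤ d → b.totalDegree ≤ d' →
      (a * b).totalDegree ≤ d + d' + 10 := fun a b ha hb => w _ _ _ (m _ _ _ _ ha hb) (by omega)
  have p0 : ∀ a b : MvPolynomial (Fin 2) F, a.totalDegree ≤ d → b.totalDegree ≤ d' →
      (fi f 0 * (a * b)).totalDegree ≤ d + d' + 10 := fun a b ha hb =>
    w _ _ _ (m _ _ _ _ f0 (m _ _ _ _ ha hb)) (by omega)
  have p1 : ∀ a b : MvPolynomial (Fin 2) F, a.totalDegree ≤ d → b.totalDegree ≤ d' →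
      (fi f 1 * (a * b)).totalDegree ≤ d + d' + 10 := fun a b ha hb =>
    w _ _ _ (m _ _ _ _ f1 (m _ _ _ _ ha hb)) (by omega)
  have p01 : ∀ a b : MvPolynomial (Fin 2) F, a.totalDegree ≤ d → b.totalDegree ≤ d' →
      (fi f 0 * (fi f 1 * (a * b))).totalDegree ≤ d + d' + 10 := fun a b ha hb =>
    w _ _ _ (m _ _ _ _ f0 (m _ _ _ _ f1 (m _ _ _ _ ha hb))) (by omega)
  refine ⟨g0 * r0 + fi f 0 * (g1 * r1) + fi f 1 * (g2 * r2) + fi f 0 * (fi f 1 * (g3 * r3)),
    g0 * r1 + g1 * r0 + fi f 1 * (g2 * r3) + fi f 1 * (g3 * r2),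
    g0 * r2 + g2 * r0 + fi f 0 * (g1 * r3) + fi f 0 * (g3 * r1),
    g0 * r3 + g3 * r0 + g1 * r2 + g2 * r1, ?_, ?_, ?_, ?_, ?_⟩
  · exact s _ _ _ (s _ _ _ (s _ _ _ (pl _ _ b0 b0') (p0 _ _ b1 b1')) (p1 _ _ b2 b2'))
      (p01 _ _ b3 b3')
  · exact s _ _ _ (s _ _ _ (s _ _ _ (pl _ _ b0 b1') (pl _ _ b1 b0')) (p1 _ _ b2 b3'))
      (p1 _ _ b3 b2')
  · exact s _ _ _ (s _ _ _ (s _ _ _ (pl _ _ b0 b2') (pl _ _ b2 b0')) (p0 _ _ b1 b3'))
      (p0 _ _ b3 b1')
  · exact s _ _ _ (s _ _ _ (s _ _ _ (pl _ _ b0 b3') (pl _ _ b3 b0')) (pl _ _ b1 b2'))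
      (pl _ _ b2 b1')
  · intro D
    obtain ⟨e1, e2⟩ := ev_fi D
    simp only [hh, hh', map_add, map_mul, e1, e2]
    ring

lemma Rp.pow {F : Type} [Field F] {f : F[X]} (hf : f.natDegree = 5) {d : ℕ}
    {h : (D : Dt F f) → D.E} (a : Rp f d h) (n : ℕ) : Rp f (n * (d + 10)) (fun D => h D ^ n) := by
  induction n with
  | zero =>
    refine ⟨1, 0, 0, 0, ?_, ?_, ?_, ?_, ?_⟩ <;> simp
  | succ n ih =>
    have h1 := Rp.mul hf ih a
    have e : (fun D : Dt F f => h D ^ (n + 1)) = fun D => h D ^ n * h D := by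
      funext D
      rw [pow_succ]
    rw [e]
    exact h1.mono (by ring_nf; omega)

lemma Rp.sum {F : Type} [Field F] {f : F[X]} {d : ℕ} {ι : Type} (s : Finset ι)
    (h : ι → (D : Dt F f) → D.E) (a : ∀ i ∈ s, Rp f d (h i)) :
    Rp f d (fun D => ∑ i ∈ s, h i D) := by
  classical
  induction s using Finset.induction_on with
  | empty =>
    refine ⟨0, 0, 0, 0, ?_, ?_, ?_, ?_, ?_⟩ <;> simp
  | insert i s hi ih =>
    have h1 := (a i (Finset.mem_insert_self i s)).add (ih (fun j hj => a j (Finset.mem_insert_of_mem hj)))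
    have e : (fun D : Dt F f => ∑ i ∈ insert i s, h i D) = fun D => h i D + ∑ i ∈ s, h i D := by
      funext D
      rw [Finset.sum_insert hi]
    rw [e]
    exact h1

/-- `(a1 - a2)^M G(q)` is representable -/
lemma Rp_G {F : Type} [Field F] {f : F[X]} (hf : f.natDegree = 5) (M : ℕ)
    (G : MvPolynomial (Fin 4) F) (hG : G.totalDegree ≤ M) :
    Rp f (55 * M + 60) (fun D => ∑ m ∈ G.support, D.φ (G.coeff m) * (D.a1 + D.a2) ^ m 0 *
      (D.a1 * D.a2) ^ m 1 * (D.a1 * D.y2 - D.a2 * D.y1) ^ m 2 * (D.y1 - D.y2) ^ m 3 *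
      (D.a1 - D.a2) ^ (M - m 2 - m 3)) := by
  apply Rp.sum
  intro m hm
  have hmM : m 0 + m 1 + m 2 + m 3 ≤ M := by
    have h1 := MvPolynomial.le_totalDegree hm
    have h2 : (m.sum fun _ e => e) = m 0 + m 1 + m 2 + m 3 := by
      rw [Finsupp.sum_fintype _ _ (fun _ => rfl), Fin.sum_univ_four]
    omega
  have c0 : Rp f 0 (fun D : Dt F f => D.φ (G.coeff m)) := by
    refine ⟨MvPolynomial.C (G.coeff m), 0, 0, 0, ?_, ?_, ?_, ?_, ?_⟩
    · rw [MvPolynomial.totalDegree_C]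
    · simp
    · simp
    · simp
    · intro D
      simp [ev]
  have hx : ∀ i : Fin 2, (MvPolynomial.X i : MvPolynomial (Fin 2) F).totalDegree ≤ 1 := fun i => by
    rw [MvPolynomial.totalDegree_X]
  have c1 : Rp f 1 (fun D : Dt F f => D.a1 + D.a2) := by
    refine ⟨MvPolynomial.X 0 + MvPolynomial.X 1, 0, 0, 0, ?_, ?_, ?_, ?_, ?_⟩
    · exact (MvPolynomial.totalDegree_add _ _).trans (max_le (hx 0) (hx 1))
    · simp
    · simp
    · simp
    · intro D
      simp [ev]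
  have c2 : Rp f 2 (fun D : Dt F f => D.a1 * D.a2) := by
    refine ⟨MvPolynomial.X 0 * MvPolynomial.X 1, 0, 0, 0, ?_, ?_, ?_, ?_, ?_⟩
    · exact (MvPolynomial.totalDegree_mul _ _).trans (add_le_add (hx 0) (hx 1))
    · simp
    · simp
    · simp
    · intro D
      simp [ev]
  have c3 : Rp f 1 (fun D : Dt F f => D.a1 * D.y2 - D.a2 * D.y1) := by
    refine ⟨0, - MvPolynomial.X 1, MvPolynomial.X 0, 0, ?_, ?_, ?_, ?_, ?_⟩
    · simp
    · rw [MvPolynomial.totalDegree_neg]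
      exact hx 1
    · exact hx 0
    · simp
    · intro D
      simp [ev]
      ring
  have c4 : Rp f 0 (fun D : Dt F f => D.y1 - D.y2) := by
    refine ⟨0, 1, -1, 0, ?_, ?_, ?_, ?_, ?_⟩
    · simp
    · simp
    · rw [MvPolynomial.totalDegree_neg]
      simp
    · simp
    · intro D
      simp [ev]
      ring
  have c5 : Rp f 1 (fun D : Dt F f => D.a1 - D.a2) := by
    refine ⟨MvPolynomial.X 0 - MvPolynomial.X 1, 0, 0, 0, ?_, ?_, ?_, ?_, ?_⟩
    · exact (MvPolynomial.totalDegree_sub _ _).trans (max_le (hx 0) (hx 1))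
    · simp
    · simp
    · simp
    · intro D
      simp [ev]
  have k := Rp.mul hf (Rp.mul hf (Rp.mul hf (Rp.mul hf (Rp.mul hf c0 (Rp.pow hf c1 (m 0)))
    (Rp.pow hf c2 (m 1))) (Rp.pow hf c3 (m 2))) (Rp.pow hf c4 (m 3)))
    (Rp.pow hf c5 (M - m 2 - m 3))
  refine k.mono ?_
  have b1 : m 0 * (1 + 10) ≤ 11 * M := by nlinarith
  have b2 : m 1 * (2 + 10) ≤ 12 * M := by nlinarith
  have b3 : m 2 * (1 + 10) ≤ 11 * M := by nlinarith
  have b4 : m 3 * (0 + 10) ≤ 10 * M := by nlinarith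
  have b5 : (M - m 2 - m 3) * (1 + 10) ≤ 11 * M := by
    have : M - m 2 - m 3 ≤ M := by omega
    nlinarith
  omega

/-- functions of `(a1, a2)` of the form `A(s, p) + B(s, p) a1` -/
def Rq {F : Type} [Field F] (d : ℕ) (g : MvPolynomial (Fin 2) F) : Prop :=
  ∃ A B : MvPolynomial (Fin 2) F, A.totalDegree ≤ d ∧ B.totalDegree ≤ d ∧
    ∀ (E : Type) [Field E] (φ : F →+* E) (a b : E),
      MvPolynomial.eval₂ φ ![a, b] g = MvPolynomial.eval₂ φ ![a + b, a * b] A
        + MvPolynomial.eval₂ φ ![a + b, a * b] B * a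

lemma Rq.mono {F : Type} [Field F] {d e : ℕ} {g : MvPolynomial (Fin 2) F} (a : Rq d g)
    (h : d ≤ e) : Rq e g := by
  obtain ⟨A, B, hA, hB, hh⟩ := a
  exact ⟨A, B, hA.trans h, hB.trans h, hh⟩

lemma Rq.add {F : Type} [Field F] {d : ℕ} {g g' : MvPolynomial (Fin 2) F} (a : Rq d g)
    (a' : Rq d g') : Rq d (g + g') := by
  obtain ⟨A, B, hA, hB, hh⟩ := a
  obtain ⟨A', B', hA', hB', hh'⟩ := a'
  refine ⟨A + A', B + B', (MvPolynomial.totalDegree_add _ _).trans (max_le hA hA'),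
    (MvPolynomial.totalDegree_add _ _).trans (max_le hB hB'), ?_⟩
  intro E _ φ a b
  simp only [MvPolynomial.eval₂_add, hh, hh']
  ring

lemma Rq.mul {F : Type} [Field F] {d d' : ℕ} {g g' : MvPolynomial (Fin 2) F} (a : Rq d g)
    (a' : Rq d' g') : Rq (d + d' + 1) (g * g') := by
  obtain ⟨A, B, hA, hB, hh⟩ := a
  obtain ⟨A', B', hA', hB', hh'⟩ := a'
  have m : ∀ (a b : MvPolynomial (Fin 2) F) (x y : ℕ), a.totalDegree ≤ x → b.totalDegree ≤ y →
      (a * b).totalDegree ≤ x + y := fun a b x y ha hb =>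
    (MvPolynomial.totalDegree_mul a b).trans (add_le_add ha hb)
  have s : ∀ (a b : MvPolynomial (Fin 2) F) (x : ℕ), a.totalDegree ≤ x → b.totalDegree ≤ x →
      (a + b).totalDegree ≤ x := fun a b x ha hb =>
    (MvPolynomial.totalDegree_add a b).trans (max_le ha hb)
  have t : ∀ (a b : MvPolynomial (Fin 2) F) (x : ℕ), a.totalDegree ≤ x → b.totalDegree ≤ x →
      (a - b).totalDegree ≤ x := fun a b x ha hb =>
    (MvPolynomial.totalDegree_sub a b).trans (max_le ha hb)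
  have hx : ∀ i : Fin 2, (MvPolynomial.X i : MvPolynomial (Fin 2) F).totalDegree ≤ 1 := fun i => by
    rw [MvPolynomial.totalDegree_X]
  refine ⟨A * A' - MvPolynomial.X 1 * (B * B'), A * B' + A' * B + MvPolynomial.X 0 * (B * B'),
    ?_, ?_, ?_⟩
  · apply t
    · exact (m _ _ _ _ hA hA').trans (by omega)
    · exact (m _ _ _ _ (hx 1) (m _ _ _ _ hB hB')).trans (by omega)
  · apply s
    · apply s
      · exact (m _ _ _ _ hA hB').trans (by omega)
      · exact (m _ _ _ _ hA' hB).trans (by omega)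
    · exact (m _ _ _ _ (hx 0) (m _ _ _ _ hB hB')).trans (by omega)
  · intro E _ φ a b
    simp only [MvPolynomial.eval₂_add, MvPolynomial.eval₂_mul, MvPolynomial.eval₂_sub,
      MvPolynomial.eval₂_X, hh, hh', Matrix.cons_val_zero, Matrix.cons_val_one]
    ring

lemma Rq.sum {F : Type} [Field F] {d : ℕ} {ι : Type} (s : Finset ι)
    (g : ι → MvPolynomial (Fin 2) F) (a : ∀ i ∈ s, Rq d (g i)) : Rq d (∑ i ∈ s, g i) := by
  classical
  induction s using Finset.induction_on with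
  | empty =>
    refine ⟨0, 0, ?_, ?_, ?_⟩
    · simp
    · simp
    · intro E _ φ a b
      simp
  | insert i s hi ih =>
    rw [Finset.sum_insert hi]
    exact (a i (Finset.mem_insert_self i s)).add (ih (fun j hj => a j (Finset.mem_insert_of_mem hj)))

lemma Rq.pow {F : Type} [Field F] {d : ℕ} {g : MvPolynomial (Fin 2) F} (a : Rq d g) (n : ℕ) :
    Rq (n * (d + 1)) (g ^ n) := by
  induction n with
  | zero =>
    refine ⟨1, 0, ?_, ?_, ?_⟩
    · simp
    · simp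
    · intro E _ φ a b
      simp
  | succ n ih =>
    rw [pow_succ]
    exact (ih.mul a).mono (by ring_nf; omega)

lemma Rq_all {F : Type} [Field F] (g : MvPolynomial (Fin 2) F) (d : ℕ) (hg : g.totalDegree ≤ d) :
    Rq (4 * d + 2) g := by
  rw [g.as_sum]
  apply Rq.sum
  intro m hm
  have hmM : m 0 + m 1 ≤ d := by
    have h1 := MvPolynomial.le_totalDegree hm
    have h2 : (m.sum fun _ e => e) = m 0 + m 1 := by
      rw [Finsupp.sum_fintype _ _ (fun _ => rfl), Fin.sum_univ_two]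
    omega
  have e : MvPolynomial.monomial m (g.coeff m) = MvPolynomial.C (g.coeff m) *
      MvPolynomial.X 0 ^ m 0 * MvPolynomial.X 1 ^ m 1 := by
    rw [MvPolynomial.monomial_eq, Finsupp.prod_fintype _ _ (fun _ => pow_zero _), Fin.prod_univ_two]
    ring
  rw [e]
  have c0 : Rq 0 (MvPolynomial.C (g.coeff m) : MvPolynomial (Fin 2) F) := by
    refine ⟨MvPolynomial.C (g.coeff m), 0, ?_, ?_, ?_⟩
    · rw [MvPolynomial.totalDegree_C]
    · simp
    · intro E _ φ a b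
      simp
  have c1 : Rq 0 (MvPolynomial.X 0 : MvPolynomial (Fin 2) F) := by
    refine ⟨0, 1, ?_, ?_, ?_⟩
    · simp
    · simp
    · intro E _ φ a b
      simp
  have c2 : Rq 1 (MvPolynomial.X 1 : MvPolynomial (Fin 2) F) := by
    refine ⟨MvPolynomial.X 0, -1, ?_, ?_, ?_⟩
    · rw [MvPolynomial.totalDegree_X]
    · rw [MvPolynomial.totalDegree_neg]
      simp
    · intro E _ φ a b
      simp
  have k := (c0.mul (c1.pow (m 0))).mul (c2.pow (m 1))
  refine k.mono ?_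
  omega

/-- norm to the symmetric functions -/
lemma symNorm {F : Type} [Field F] [CharZero F] (n : MvPolynomial (Fin 2) F) (hn : n ≠ 0) (d : ℕ)
    (hd : n.totalDegree ≤ d) :
    ∃ Θ : MvPolynomial (Fin 2) F, Θ ≠ 0 ∧ Θ.totalDegree ≤ 8 * d + 5 ∧
      ∀ (E : Type) [Field E] (φ : F →+* E) (a b : E),
        MvPolynomial.eval₂ φ ![a + b, a * b] Θ =
          MvPolynomial.eval₂ φ ![a, b] n * MvPolynomial.eval₂ φ ![b, a] n := by
  obtain ⟨A, B, hA, hB, hh⟩ := Rq_all n d hd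
  have m : ∀ (a b : MvPolynomial (Fin 2) F) (x y : ℕ), a.totalDegree ≤ x → b.totalDegree ≤ y →
      (a * b).totalDegree ≤ x + y := fun a b x y ha hb =>
    (MvPolynomial.totalDegree_mul a b).trans (add_le_add ha hb)
  have s : ∀ (a b : MvPolynomial (Fin 2) F) (x : ℕ), a.totalDegree ≤ x → b.totalDegree ≤ x →
      (a + b).totalDegree ≤ x := fun a b x ha hb =>
    (MvPolynomial.totalDegree_add a b).trans (max_le ha hb)
  have hx : ∀ i : Fin 2, (MvPolynomial.X i : MvPolynomial (Fin 2) F).totalDegree ≤ 1 := fun i => by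
    rw [MvPolynomial.totalDegree_X]
  have key : ∀ (E : Type) [Field E] (φ : F →+* E) (a b : E),
        MvPolynomial.eval₂ φ ![a + b, a * b] (A * A + MvPolynomial.X 0 * (A * B)
          + MvPolynomial.X 1 * (B * B)) =
          MvPolynomial.eval₂ φ ![a, b] n * MvPolynomial.eval₂ φ ![b, a] n := by
    intro E _ φ a b
    have h1 := hh E φ a b
    have h2 := hh E φ b a
    rw [add_comm b a, mul_comm b a] at h2
    rw [h1, h2]
    simp only [MvPolynomial.eval₂_add, MvPolynomial.eval₂_mul,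
      MvPolynomial.eval₂_X, Matrix.cons_val_zero, Matrix.cons_val_one]
    ring
  refine ⟨A * A + MvPolynomial.X 0 * (A * B) + MvPolynomial.X 1 * (B * B), ?_, ?_, key⟩
  · intro h0
    have hsw : MvPolynomial.rename (Equiv.swap (0 : Fin 2) 1) n ≠ 0 := by
      intro h1
      apply hn
      apply MvPolynomial.rename_injective _ (Equiv.swap (0 : Fin 2) 1).injective
      rw [h1, map_zero]
    apply mul_ne_zero hn hsw
    apply MvPolynomial.funext
    intro x
    have h2 := key F (RingHom.id F) (x 0) (x 1)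
    rw [h0, MvPolynomial.eval₂_zero] at h2
    rw [map_zero, map_mul, MvPolynomial.eval_rename]
    have e1 : (![x 0, x 1] : Fin 2 → F) = x := by
      funext i
      fin_cases i <;> rfl
    have e2 : (![x 1, x 0] : Fin 2 → F) = x ∘ (Equiv.swap (0 : Fin 2) 1) := by
      funext i
      fin_cases i <;> simp
    rw [e1, e2, MvPolynomial.eval₂_id, MvPolynomial.eval₂_id] at h2
    exact h2.symm
  · apply s
    · apply s
      · exact (m _ _ _ _ hA hA).trans (by omega)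
      · exact (m _ _ _ _ (hx 0) (m _ _ _ _ hA hB)).trans (by omega)
    · exact (m _ _ _ _ (hx 1) (m _ _ _ _ hB hB)).trans (by omega)

/-- the datum over the algebraic closure of a point -/
lemma exists_dt {F : Type} [Field F] (f : F[X]) (E : Type) [Field E] (φ : F →+* E)
    (q : Fin 4 → E) (hq : On (f.map φ) q) :
    ∃ (D : Dt F f) (ι : E →+* D.E), D.φ = ι.comp φ ∧ ι (q 0) = D.a1 + D.a2 ∧
      ι (q 1) = D.a1 * D.a2 ∧ D.y1 = ι (q 2) + ι (q 3) * D.a1 ∧ D.y2 = ι (q 2) + ι (q 3) * D.a2 := by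
  have hdeg : ((pA q).map (algebraMap E (AlgebraicClosure E))).degree ≠ 0 := by
    have h2 : (pA q).degree = 2 := by
      unfold pA
      compute_degree!
    rw [Polynomial.degree_map, h2]
    decide
  obtain ⟨a, ha⟩ := IsAlgClosed.exists_root ((pA q).map (algebraMap E (AlgebraicClosure E))) hdeg
  set ι := algebraMap E (AlgebraicClosure E) with hι
  have ha' : a ^ 2 - ι (q 0) * a + ι (q 1) = 0 := by
    have h1 := ha
    rw [Polynomial.IsRoot.def] at h1
    unfold pA at h1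
    simpa using h1
  have hr : ∀ x : AlgebraicClosure E, x ^ 2 - ι (q 0) * x + ι (q 1) = 0 →
      (ι (q 2) + ι (q 3) * x) ^ 2 = (f.map (ι.comp φ)).eval x := by
    intro x hx
    obtain ⟨r, hr⟩ := hq
    have h1 := congrArg (fun p : E[X] => (p.map ι).eval x) hr
    simp only [Polynomial.map_sub, Polynomial.map_mul, Polynomial.map_pow, Polynomial.eval_sub,
      Polynomial.eval_mul, Polynomial.eval_pow, Polynomial.map_map] at h1
    have h2 : ((pA q).map ι).eval x = 0 := by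
      unfold pA
      simpa using hx
    have h3 : ((pB q).map ι).eval x = ι (q 2) + ι (q 3) * x := by
      unfold pB
      simp
      ring
    rw [h2, zero_mul, h3] at h1
    exact sub_eq_zero.mp h1
  have hb : (ι (q 0) - a) ^ 2 - ι (q 0) * (ι (q 0) - a) + ι (q 1) = 0 := by
    linear_combination ha'
  refine ⟨⟨AlgebraicClosure E, inferInstance, ι.comp φ, a, ι (q 0) - a, ι (q 2) + ι (q 3) * a,
    ι (q 2) + ι (q 3) * (ι (q 0) - a), hr _ ha', hr _ hb⟩, ι, rfl, ?_, ?_, rfl, rfl⟩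
  · show ι (q 0) = a + (ι (q 0) - a)
    ring
  · show ι (q 1) = a * (ι (q 0) - a)
    linear_combination ha'

/-- the value of the representable function -/
lemma val_eq {F : Type} [Field F] {f : F[X]} (M : ℕ) (G : MvPolynomial (Fin 4) F)
    (hG : G.totalDegree ≤ M) (D : Dt F f) (x y : D.E)
    (h1 : D.y1 = x + y * D.a1) (h2 : D.y2 = x + y * D.a2) :
    ∑ m ∈ G.support, D.φ (G.coeff m) * (D.a1 + D.a2) ^ m 0 *
      (D.a1 * D.a2) ^ m 1 * (D.a1 * D.y2 - D.a2 * D.y1) ^ m 2 * (D.y1 - D.y2) ^ m 3 *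
      (D.a1 - D.a2) ^ (M - m 2 - m 3) =
    (D.a1 - D.a2) ^ M * MvPolynomial.eval₂ D.φ ![D.a1 + D.a2, D.a1 * D.a2, x, y] G := by
  rw [MvPolynomial.eval₂_eq', Finset.mul_sum]
  apply Finset.sum_congr rfl
  intro m hm
  have hmM : m 0 + m 1 + m 2 + m 3 ≤ M := by
    have h1 := MvPolynomial.le_totalDegree hm
    have h2 : (m.sum fun _ e => e) = m 0 + m 1 + m 2 + m 3 := by
      rw [Finsupp.sum_fintype _ _ (fun _ => rfl), Fin.sum_univ_four]
    omega
  have e1 : D.a1 * D.y2 - D.a2 * D.y1 = (D.a1 - D.a2) * x := by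
    rw [h1, h2]
    ring
  have e2 : D.y1 - D.y2 = (D.a1 - D.a2) * y := by
    rw [h1, h2]
    ring
  have e3 : (D.a1 - D.a2) ^ M = (D.a1 - D.a2) ^ m 2 * (D.a1 - D.a2) ^ m 3 *
      (D.a1 - D.a2) ^ (M - m 2 - m 3) := by
    rw [← pow_add, ← pow_add]
    congr 1
    omega
  rw [e1, e2, e3, Fin.prod_univ_four]
  simp only [Matrix.cons_val_zero, Matrix.cons_val_one, Matrix.cons_val, mul_pow]
  ring

theorem nrm : NrmStatement := by
  intro M
  refine ⟨8 * (4 * (55 * M + 60) + 40) + 5, ?_⟩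
  intro F _ _ f hmon hf _ G hG hex
  obtain ⟨g0, g1, g2, g3, b0, b1, b2, b3, hh⟩ := Rp_G hf M G hG
  have main : ∀ (E : Type) (_ : Field E) (φ : F →+* E) (q : Fin 4 → E), On (f.map φ) q →
      ∃ (D : Dt F f) (ι : E →+* D.E), D.φ = ι.comp φ ∧ ι (q 0) = D.a1 + D.a2 ∧
        ι (q 1) = D.a1 * D.a2 ∧
        ev D g0 + ev D g1 * D.y1 + ev D g2 * D.y2 + ev D g3 * (D.y1 * D.y2) =
          (D.a1 - D.a2) ^ M * ι (MvPolynomial.eval₂ φ q G) := by
    intro E _ φ q hq
    obtain ⟨D, ι, hφ, h0, h1, h2, h3⟩ := exists_dt f E φ q hq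
    refine ⟨D, ι, hφ, h0, h1, ?_⟩
    rw [← hh D]
    have h4 := val_eq M G hG D (ι (q 2)) (ι (q 3)) h2 h3
    refine h4.trans ?_
    congr 1
    rw [MvPolynomial.eval₂_comp_left ι φ q G, ← hφ]
    congr 1
    funext i
    fin_cases i
    · exact h0.symm
    · exact h1.symm
    · rfl
    · rfl
  have hn : nn f g0 g1 g2 g3 ≠ 0 := by
    intro hn
    obtain ⟨z0, z1, z2, z3⟩ := nn_ne f hf g0 g1 g2 g3 hn
    obtain ⟨E, _, φ, q, hq, hq0, hqG⟩ := hex
    obtain ⟨D, ι, hφ, h0, h1, h2⟩ := main E _ φ q hq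
    rw [z0, z1, z2, z3, map_zero] at h2
    have h3 : (D.a1 - D.a2) ^ M * ι (MvPolynomial.eval₂ φ q G) = 0 := by
      rw [← h2]
      ring
    rcases mul_eq_zero.mp h3 with h4 | h4
    · have h5 : D.a1 - D.a2 = 0 := by
        by_contra h6
        exact pow_ne_zero M h6 h4
      apply hq0
      apply ι.injective
      rw [map_pow, map_mul, h0, h1, map_ofNat]
      linear_combination (D.a1 - D.a2) * h5
    · exact hqG (ι.injective (by rw [h4, map_zero]))
  obtain ⟨Θ, hΘ0, hΘd, hΘ⟩ := symNorm _ hn _ (nn_totalDegree f hf g0 g1 g2 g3 _ b0 b1 b2 b3)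
  refine ⟨Θ, hΘ0, hΘd, ?_⟩
  intro E _ φ q hq hqG
  obtain ⟨D, ι, hφ, h0, h1, h2⟩ := main E _ φ q hq
  rw [hqG, map_zero, mul_zero] at h2
  have h3 := nn_ev D g0 g1 g2 g3 h2
  have h4 := hΘ D.E D.φ D.a1 D.a2
  have h5 : MvPolynomial.eval₂ D.φ ![D.a1, D.a2] (nn f g0 g1 g2 g3) = 0 := h3
  rw [h5, zero_mul] at h4
  apply ι.injective
  rw [map_zero, MvPolynomial.eval₂_comp_left ι φ _ Θ, ← hφ]
  rw [← h4]
  congr 1
  funext i
  fin_cases i
  · exact h0
  · exact h1

end Pool.Agent.KDT.H19
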